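import Mathlib

set_option autoImplicit false
set_option linter.unusedSectionVars false

namespace Pool.Agent.Helper29.TT

open Module

section Semi

variable {k : Type*} [Field k] [IsAlgClosed k] [CharP k 2]
variable {V : Type*} [AddCommGroup V] [Module k V]

theorem iter_smul (L : V →+ V) (hL : ∀ (a : k) (v : V), L (a ^ 2 • v) = a • L v) (n : ℕ) :
    ∀ (a : k) (v : V), L^[n] (a ^ (2 ^ n) • v) = a • L^[n] v := by
  induction n with
  | zero => intro a v; simp
  | succ n ih =>
    intro a v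
    have h1 : a ^ (2 ^ (n + 1)) = (a ^ (2 ^ n)) ^ 2 := by rw [← pow_mul, pow_succ]
    rw [Function.iterate_succ_apply, h1, hL, ih, Function.iterate_succ_apply]

theorem iter_add (L : V →+ V) (n : ℕ) (v w : V) : L^[n] (v + w) = L^[n] v + L^[n] w := by
  induction n generalizing v w with
  | zero => simp
  | succ n ih => simp [Function.iterate_succ_apply, ih]

theorem iter_zero (L : V →+ V) (n : ℕ) : L^[n] 0 = 0 := by
  induction n with
  | zero => simp
  | succ n ih => rw [Function.iterate_succ_apply, map_zero, ih]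

/-- kernel of `L^n` as a subspace -/
def Ker (L : V →+ V) (hL : ∀ (a : k) (v : V), L (a ^ 2 • v) = a • L v) (n : ℕ) : Submodule k V where
  carrier := {v | L^[n] v = 0}
  add_mem' := by
    intro a b ha hb
    simp only [Set.mem_ofPred_eq] at *
    rw [iter_add, ha, hb, add_zero]
  zero_mem' := iter_zero L n
  smul_mem' := by
    intro c v hv
    simp only [Set.mem_ofPred_eq] at *
    obtain ⟨b, hb⟩ := IsAlgClosed.exists_pow_nat_eq c (n := 2 ^ n) (by positivity)
    rw [← hb, iter_smul L hL, hv, smul_zero]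

/-- range of `L^n` as a subspace -/
def Ran (L : V →+ V) (hL : ∀ (a : k) (v : V), L (a ^ 2 • v) = a • L v) (n : ℕ) : Submodule k V where
  carrier := Set.range (L^[n])
  add_mem' := by
    rintro _ _ ⟨a, rfl⟩ ⟨b, rfl⟩
    exact ⟨a + b, iter_add L n a b⟩
  zero_mem' := ⟨0, iter_zero L n⟩
  smul_mem' := by
    rintro c _ ⟨v, rfl⟩
    exact ⟨c ^ (2 ^ n) • v, iter_smul L hL n c v⟩

theorem mem_Ker {L : V →+ V} {hL : ∀ (a : k) (v : V), L (a ^ 2 • v) = a • L v} {n : ℕ} {v : V} :
    v ∈ Ker L hL n ↔ L^[n] v = 0 := Iff.rfl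

theorem mem_Ran {L : V →+ V} {hL : ∀ (a : k) (v : V), L (a ^ 2 • v) = a • L v} {n : ℕ} {v : V} :
    v ∈ Ran L hL n ↔ ∃ w, L^[n] w = v := Iff.rfl

theorem semi_fitting [FiniteDimensional k V] (L : V →+ V)
    (hL : ∀ (a : k) (v : V), L (a ^ 2 • v) = a • L v) :
    ∃ n : ℕ, 1 ≤ n ∧ IsCompl (Ker L hL n) (Ran L hL n) := by
  have hKm : Monotone (Ker L hL) := by
    refine monotone_nat_of_le_succ ?_
    intro n v hv
    rw [mem_Ker] at *
    rw [Function.iterate_succ_apply', hv, map_zero]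
  have hRm : Antitone (Ran L hL) := by
    refine antitone_nat_of_succ_le ?_
    rintro n _ ⟨w, rfl⟩
    exact ⟨L w, by rw [← Function.iterate_succ_apply]⟩
  obtain ⟨n1, h1⟩ := monotone_stabilizes_iff_noetherian.mpr (inferInstance : IsNoetherian k V)
    ⟨Ker L hL, hKm⟩
  obtain ⟨n2, h2⟩ := IsArtinian.monotone_stabilizes (R := k) (M := V) ⟨fun n => OrderDual.toDual (Ran L hL n), hRm⟩
  have h1' : ∀ m, n1 ≤ m → Ker L hL n1 = Ker L hL m := fun m hm => h1 m hm
  have h2' : ∀ m, n2 ≤ m → Ran L hL n2 = Ran L hL m := fun m hm => h2 m hm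
  refine ⟨n1 + n2 + 1, by omega, ?_⟩
  set n := n1 + n2 + 1 with hn
  have hK : Ker L hL n = Ker L hL (n + n) := by
    rw [← h1' n (by omega), ← h1' (n + n) (by omega)]
  have hR : Ran L hL n = Ran L hL (n + n) := by
    rw [← h2' n (by omega), ← h2' (n + n) (by omega)]
  rw [isCompl_iff, disjoint_iff, codisjoint_iff]
  constructor
  · rw [eq_bot_iff]
    rintro v ⟨hv1, w, rfl⟩
    have : w ∈ Ker L hL (n + n) := by
      rw [mem_Ker, Function.iterate_add_apply]
      exact hv1
    rw [← hK, mem_Ker] at this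
    simpa using this
  · rw [eq_top_iff]
    intro v _
    have : L^[n] v ∈ Ran L hL (n + n) := by
      rw [← hR]; exact ⟨v, rfl⟩
    obtain ⟨w, hw⟩ := this
    rw [Function.iterate_add_apply] at hw
    rw [Submodule.mem_sup]
    refine ⟨v - L^[n] w, ?_, L^[n] w, ⟨w, rfl⟩, by abel⟩
    rw [mem_Ker]
    have : L^[n] (v - L^[n] w) + L^[n] (L^[n] w) = L^[n] v := by
      rw [← iter_add]; congr 1; abel
    rw [hw] at this
    simpa using this

end Semi

end Pool.Agent.Helper29.TT
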