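import Pool.Agent.Helper29.TT.Reduce

set_option autoImplicit false
set_option linter.unusedSectionVars false

namespace Pool.Agent.Helper29.TT

open Module Function

variable {k : Type} [Field k] [IsAlgClosed k] [CharP k 2]
variable {V : Type} [AddCommGroup V] [Module k V]
variable {m : ℕ}

/-- contraction of two slots of the argument with `ξ`, `η` and of `F` with `v`, `u` -/
noncomputable def PsiM (F : MultilinearMap k (fun _ : Fin m => V) k) {i j : Fin m} (hij : i ≠ j)
    (v u : V) (ξ η : Dual k V) : MultilinearMap k (fun _ : Fin m => V) k :=
  MultilinearMap.mk' (fun y => ξ (y i) * η (y j) * F (update (update y i v) j u))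
    (by
      intro y l a b
      by_cases hi : l = i
      · subst hi
        simp only [update_self, update_idem, update_of_ne hij.symm, map_add]
        ring
      · by_cases hj : l = j
        · subst hj
          have h1 : ∀ c : V, update (update (update y l c) i v) l u = update (update y i v) l u := by
            intro c
            rw [update_comm hij.symm, update_idem, update_comm hij]
          simp only [update_self, update_of_ne hij, map_add, h1]
          ring
        · have h1 : ∀ c : V, update (update (update y l c) i v) j u =
              update (update (update y i v) j u) l c := by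
            intro c
            rw [update_comm hi, update_comm hj]
          simp only [update_of_ne (Ne.symm hi), update_of_ne (Ne.symm hj), h1, F.map_update_add]
          ring)
    (by
      intro y l c a
      by_cases hi : l = i
      · subst hi
        simp only [update_self, update_idem, update_of_ne hij.symm, map_smul, smul_eq_mul]
        ring
      · by_cases hj : l = j
        · subst hj
          have h1 : ∀ c : V, update (update (update y l c) i v) l u = update (update y i v) l u := by
            intro c
            rw [update_comm hij.symm, update_idem, update_comm hij]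
          simp only [update_self, update_of_ne hij, map_smul, h1, smul_eq_mul]
          ring
        · have h1 : ∀ c : V, update (update (update y l c) i v) j u =
              update (update (update y i v) j u) l c := by
            intro c
            rw [update_comm hi, update_comm hj]
          simp only [update_of_ne (Ne.symm hi), update_of_ne (Ne.symm hj), h1, F.map_update_smul,
            smul_eq_mul]
          ring)

theorem PsiM_apply (F : MultilinearMap k (fun _ : Fin m => V) k) {i j : Fin m} (hij : i ≠ j)
    (v u : V) (ξ η : Dual k V) (y : Fin m → V) :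
    PsiM F hij v u ξ η y = ξ (y i) * η (y j) * F (update (update y i v) j u) := rfl

theorem swap_update {i j : Fin m} (hij : i ≠ j) (v u : V) (y : Fin m → V) :
    (fun l => update (update y i v) j u (Equiv.swap i j l)) = update (update y i u) j v := by
  funext l
  by_cases hi : l = i
  · subst hi
    rw [Equiv.swap_apply_left, update_self, update_of_ne hij, update_self]
  · by_cases hj : l = j
    · subst hj
      rw [Equiv.swap_apply_right, update_of_ne hij, update_self, update_self]
    · rw [Equiv.swap_apply_of_ne_of_ne hi hj, update_of_ne hj, update_of_ne hi, update_of_ne hj,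
        update_of_ne hi]

theorem update_swap {i j : Fin m} (hij : i ≠ j) (v u : V) (y : Fin m → V) :
    update (update (fun l => y (Equiv.swap i j l)) i v) j u =
      fun l => update (update y i u) j v (Equiv.swap i j l) := by
  rw [swap_update hij]
  funext l
  by_cases hi : l = i
  · subst hi
    rw [update_of_ne hij, update_self, update_of_ne hij, update_self]
  · by_cases hj : l = j
    · subst hj
      rw [update_self, update_self]
    · rw [update_of_ne hj, update_of_ne hi, update_of_ne hj,
        update_of_ne hi, Equiv.swap_apply_of_ne_of_ne hi hj]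

/-- the contraction data attached to invariants of a transposition -/
noncomputable def mkLam {G : Type} [Group G] (ρ : Representation k G V)
    (F : MultilinearMap k (fun _ : Fin m => V) k) {i j : Fin m} (hij : i ≠ j)
    (w : PiTensorProduct k (fun _ : Fin m => V))
    (hFs : ∀ y, F (fun l => y (Equiv.swap i j l)) = F y)
    (hFG : ∀ g y, F (fun l => ρ g (y l)) = F y)
    (hws : ∀ φ : MultilinearMap k (fun _ : Fin m => V) k, ∀ φ' : MultilinearMap k (fun _ : Fin m => V) k,
      (∀ y, φ' y = φ (fun l => y (Equiv.swap i j l))) →
      PiTensorProduct.lift φ' w = PiTensorProduct.lift φ w)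
    (hwG : ∀ g : G, ∀ φ : MultilinearMap k (fun _ : Fin m => V) k,
      ∀ φ' : MultilinearMap k (fun _ : Fin m => V) k,
      (∀ y, φ' y = φ (fun l => ρ g (y l))) →
      PiTensorProduct.lift φ' w = PiTensorProduct.lift φ w) : Lam ρ where
  Λ := fun v u ξ η => PiTensorProduct.lift (PsiM F hij v u ξ η) w
  add1 := by
    intro v v' u ξ η
    rw [← LinearMap.add_apply, ← map_add]
    congr 2
    ext y
    rw [_root_.add_apply]
    simp only [PsiM_apply]
    have h1 : ∀ c : V, update (update y i c) j u = update (update y j u) i c :=
      fun c => update_comm hij _ _ _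
    rw [h1, h1, h1, F.map_update_add]
    ring
  smul1 := by
    intro a v u ξ η
    rw [← smul_eq_mul, ← LinearMap.smul_apply, ← map_smul]
    congr 2
    ext y
    rw [_root_.smul_apply]
    simp only [PsiM_apply]
    have h1 : ∀ c : V, update (update y i c) j u = update (update y j u) i c :=
      fun c => update_comm hij _ _ _
    rw [h1, h1, F.map_update_smul]
    simp only [smul_eq_mul]
    ring
  comm12 := by
    intro v u ξ η
    congr 2
    ext y
    simp only [PsiM_apply]
    rw [← hFs (update (update y i v) j u), swap_update hij]
  add3 := by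
    intro v u ξ ξ' η
    rw [← LinearMap.add_apply, ← map_add]
    congr 2
    ext y
    rw [_root_.add_apply]
    simp only [PsiM_apply, LinearMap.add_apply]
    ring
  smul3 := by
    intro a v u ξ η
    rw [← smul_eq_mul, ← LinearMap.smul_apply, ← map_smul]
    congr 2
    ext y
    rw [_root_.smul_apply]
    simp only [PsiM_apply, LinearMap.smul_apply, smul_eq_mul]
    ring
  comm34 := by
    intro v u ξ η
    apply hws
    intro y
    rw [PsiM_apply, PsiM_apply]
    simp only [Equiv.swap_apply_left, Equiv.swap_apply_right]
    rw [update_swap hij, swap_update hij, ← hFs (update (update y i v) j u), swap_update hij]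
    ring
  equiv := by
    intro g v u ξ η
    symm
    apply hwG g
    intro y
    rw [PsiM_apply, PsiM_apply]
    simp only [LinearMap.comp_apply]
    congr 1
    rw [← hFG g]
    congr 1
    funext l
    by_cases hj : l = j
    · subst hj; simp
    · by_cases hi : l = i
      · subst hi; simp [update_of_ne hj]
      · simp [update_of_ne hj, update_of_ne hi]

theorem main (G : Type) [Group G] [Finite G] (hG : IsPGroup 2 G)
    (k : Type) [Field k] [IsAlgClosed k] [CharP k 2]
    (V : Type) [AddCommGroup V] [Module k V] [FiniteDimensional k V]
    (ρ : Representation k G V)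
    (hI : ∀ W₁ W₂ : Submodule k V,
          (∀ g : G, ∀ v ∈ W₁, ρ g v ∈ W₁) →
          (∀ g : G, ∀ v ∈ W₂, ρ g v ∈ W₂) →
          IsCompl W₁ W₂ → W₁ = ⊥ ∨ W₂ = ⊥)
    (hnt : ¬ (Module.finrank k V = 1 ∧ ∀ g : G, ρ g = 1))
    (m : ℕ) (i j : Fin m) (hij : i ≠ j) :
    ¬ ∃ (w : PiTensorProduct k (fun _ : Fin m => V))
          (f : PiTensorProduct k (fun _ : Fin m => V) →ₗ[k] k),
          (∀ g : G, PiTensorProduct.map (fun _ : Fin m => (ρ g : V →ₗ[k] V)) w = w) ∧
          (∀ g : G, f ∘ₗ PiTensorProduct.map (fun _ : Fin m => (ρ g : V →ₗ[k] V)) = f) ∧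
          PiTensorProduct.reindex k (fun _ : Fin m => V) (Equiv.swap i j) w = w ∧
          (∀ x, f (PiTensorProduct.reindex k (fun _ : Fin m => V) (Equiv.swap i j) x) = f x) ∧
          f w = 1 := by
  rintro ⟨w, f, hwG, hfG, hws, hfs, hfw⟩
  have hI' : Indec ρ := hI
  let F : MultilinearMap k (fun _ : Fin m => V) k := f.compMultilinearMap (PiTensorProduct.tprod k)
  have hF : ∀ y, F y = f (PiTensorProduct.tprod k y) := fun y => rfl
  have hlF : PiTensorProduct.lift F = f := by
    ext y; simp [hF]
  have hFs : ∀ y, F (fun l => y (Equiv.swap i j l)) = F y := by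
    intro y
    rw [hF, hF, ← hfs (PiTensorProduct.tprod k y), PiTensorProduct.reindex_tprod, Equiv.symm_swap]
  have hFG : ∀ g y, F (fun l => ρ g (y l)) = F y := by
    intro g y
    rw [hF, hF]
    conv_rhs => rw [← hfG g]
    rw [LinearMap.comp_apply, PiTensorProduct.map_tprod]
  have hws' : ∀ φ : MultilinearMap k (fun _ : Fin m => V) k, ∀ φ' : MultilinearMap k (fun _ : Fin m => V) k,
      (∀ y, φ' y = φ (fun l => y (Equiv.swap i j l))) →
      PiTensorProduct.lift φ' w = PiTensorProduct.lift φ w := by
    intro φ φ' h
    conv_rhs => rw [← hws]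
    have : PiTensorProduct.lift φ' = (PiTensorProduct.lift φ) ∘ₗ
        (PiTensorProduct.reindex k (fun _ : Fin m => V) (Equiv.swap i j)).toLinearMap := by
      ext y
      simp [h]
    rw [this]
    rfl
  have hwG' : ∀ g : G, ∀ φ : MultilinearMap k (fun _ : Fin m => V) k,
      ∀ φ' : MultilinearMap k (fun _ : Fin m => V) k,
      (∀ y, φ' y = φ (fun l => ρ g (y l))) →
      PiTensorProduct.lift φ' w = PiTensorProduct.lift φ w := by
    intro g φ φ' h
    conv_rhs => rw [← hwG g]
    have : PiTensorProduct.lift φ' = (PiTensorProduct.lift φ) ∘ₗ
        (PiTensorProduct.map (fun _ : Fin m => (ρ g : V →ₗ[k] V))) := by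
      ext y
      simp [h]
    rw [this]
    rfl
  let T := mkLam ρ F hij w hFs hFG hws' hwG'
  let b := Module.finBasis k V
  have htr : ∑ a, T.Λ (b a) (b a) (b.coord a) (b.coord a) = 1 := by
    have h1 : ∀ y : Fin m → V, F y = ∑ a, ∑ c, PsiM F hij (b a) (b c) (b.coord a) (b.coord c) y := by
      intro y
      have e1 : ∀ z : Fin m → V, F z = ∑ a, b.coord a (z i) * F (update z i (b a)) := by
        intro z
        conv_lhs => rw [← update_eq_self i z, ← b.sum_repr (z i)]
        rw [F.map_update_sum]
        refine Finset.sum_congr rfl fun a _ => ?_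
        rw [F.map_update_smul]
        rfl
      have e2 : ∀ z : Fin m → V, F z = ∑ a, b.coord a (z j) * F (update z j (b a)) := by
        intro z
        conv_lhs => rw [← update_eq_self j z, ← b.sum_repr (z j)]
        rw [F.map_update_sum]
        refine Finset.sum_congr rfl fun a _ => ?_
        rw [F.map_update_smul]
        rfl
      rw [e1]
      refine Finset.sum_congr rfl fun a _ => ?_
      rw [e2 (update y i (b a)), Finset.mul_sum]
      refine Finset.sum_congr rfl fun c _ => ?_
      rw [PsiM_apply, update_of_ne hij.symm]
      ring
    have h2 : f w = ∑ a, ∑ c, T.Λ (b a) (b c) (b.coord a) (b.coord c) := by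
      have : f = ∑ a, ∑ c, PiTensorProduct.lift (PsiM F hij (b a) (b c) (b.coord a) (b.coord c)) := by
        rw [← hlF]
        ext y
        simp only [LinearMap.compMultilinearMap_apply, PiTensorProduct.lift.tprod,
          LinearMap.sum_apply]
        exact h1 y
      conv_lhs => rw [this]
      simp only [LinearMap.sum_apply]
      rfl
    have h3 : ∑ a, ∑ c, T.Λ (b a) (b c) (b.coord a) (b.coord c) =
        ∑ a, T.Λ (b a) (b a) (b.coord a) (b.coord a) := by
      have hsym : ∀ a c, T.Λ (b a) (b c) (b.coord a) (b.coord c) =
          T.Λ (b c) (b a) (b.coord c) (b.coord a) := by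
        intro a c
        rw [T.comm12, T.comm34]
      have key : ∀ (s : Finset (Fin (finrank k V))) (g : Fin (finrank k V) → Fin (finrank k V) → k),
          (∀ a c, g a c = g c a) → ∑ a ∈ s, ∑ c ∈ s, g a c = ∑ a ∈ s, g a a := by
        intro s g hg
        induction s using Finset.induction_on with
        | empty => simp
        | insert x s hx ih =>
          rw [Finset.sum_insert hx, Finset.sum_insert hx, Finset.sum_insert hx]
          have : ∑ a ∈ s, ∑ c ∈ insert x s, g a c = ∑ a ∈ s, g a x + ∑ a ∈ s, ∑ c ∈ s, g a c := by
            rw [← Finset.sum_add_distrib]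
            refine Finset.sum_congr rfl fun a _ => ?_
            rw [Finset.sum_insert hx]
          rw [this, ih]
          have h4 : ∑ c ∈ s, g x c = ∑ a ∈ s, g a x := Finset.sum_congr rfl fun a _ => hg x a
          rw [h4]
          have h5 : ∑ a ∈ s, g a x + ∑ a ∈ s, g a x = 0 := CharTwo.add_self_eq_zero _
          linear_combination h5
      exact key Finset.univ _ hsym
    rw [← h3, ← h2, hfw]
  have hfin := of_lam hG ρ hI' T b htr
  apply hnt
  refine ⟨hfin, ?_⟩
  obtain ⟨N, hN⟩ := IsPGroup.iff_card.mp hG
  have hnz : (⊤ : Submodule k V) ≠ ⊥ := by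
    intro h
    have : finrank k (⊤ : Submodule k V) = 0 := by rw [h]; simp
    rw [finrank_top, hfin] at this
    omega
  obtain ⟨u, -, hu0, hu⟩ := exists_fixed N G hN ρ ⊤ (fun _ _ _ => trivial) hnz
  intro g
  ext v
  obtain ⟨c, hc⟩ := (finrank_eq_one_iff_of_nonzero' u hu0).mp hfin v
  rw [← hc, map_smul, hu g, Module.End.one_apply]

end Pool.Agent.Helper29.TT
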