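import Pool.Agent.Helper29.TT.Core

set_option autoImplicit false
set_option linter.unusedSectionVars false

namespace Pool.Agent.Helper29.TT

open Module

theorem add_self' (k : Type) [Field k] [CharP k 2] {V : Type} [AddCommGroup V] [Module k V]
    (v : V) : v + v = 0 := by
  have h : (2 : k) • v = 0 := by rw [CharTwo.two_eq_zero, zero_smul]
  rwa [two_smul] at h

theorem neg_self' (k : Type) [Field k] [CharP k 2] {V : Type} [AddCommGroup V] [Module k V]
    (v : V) : -v = v := by
  rw [neg_eq_iff_add_eq_zero]; exact add_self' k v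

variable {k : Type} [Field k] [IsAlgClosed k] [CharP k 2]
variable {V : Type} [AddCommGroup V] [Module k V]

/-- no nontrivial decomposition into two stable subspaces -/
def Indec {G : Type} [Group G] (ρ : Representation k G V) : Prop :=
  ∀ W₁ W₂ : Submodule k V,
    (∀ g : G, ∀ v ∈ W₁, ρ g v ∈ W₁) →
    (∀ g : G, ∀ v ∈ W₂, ρ g v ∈ W₂) →
    IsCompl W₁ W₂ → W₁ = ⊥ ∨ W₂ = ⊥

/-- An equivariant splitting `μ : S² V → V^(1)` of the Frobenius, written on `V`. -/
structure Sq {G : Type} [Group G] (ρ : Representation k G V) where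
  μ : V → V → V
  add_left : ∀ u v w, μ (u + v) w = μ u w + μ v w
  comm : ∀ u v, μ u v = μ v u
  smul_left : ∀ (a : k) (u v : V), μ (a ^ 2 • u) v = a • μ u v
  idem : ∀ u, μ u u = u
  equiv : ∀ (g : G) (u v : V), ρ g (μ u v) = μ (ρ g u) (ρ g v)

namespace Sq

variable {G : Type} [Group G] {ρ : Representation k G V} (S : Sq ρ)

theorem add_right (u v w : V) : S.μ u (v + w) = S.μ u v + S.μ u w := by
  rw [S.comm, S.add_left, S.comm v, S.comm w]

theorem smul_right (a : k) (u v : V) : S.μ u (a ^ 2 • v) = a • S.μ u v := by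
  rw [S.comm, S.smul_left, S.comm]

/-- left multiplication -/
def L (u : V) : V →+ V := AddMonoidHom.mk' (S.μ u) (S.add_right u)

theorem L_apply (u v : V) : S.L u v = S.μ u v := rfl

theorem L_smul (u : V) (a : k) (v : V) : S.L u (a ^ 2 • v) = a • S.L u v := S.smul_right a u v

def res (H : Subgroup G) : Sq (ρ.comp H.subtype) where
  μ := S.μ
  add_left := S.add_left
  comm := S.comm
  smul_left := S.smul_left
  idem := S.idem
  equiv := fun g u v => S.equiv g u v

theorem iter_equiv (u : V) (g : G) (hu : ρ g u = u) (n : ℕ) (v : V) :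
    ρ g ((S.L u)^[n] v) = (S.L u)^[n] (ρ g v) := by
  induction n generalizing v with
  | zero => simp
  | succ n ih => rw [Function.iterate_succ_apply, ih, Function.iterate_succ_apply, L_apply, S.equiv, hu, L_apply]

theorem iter_equiv' (u : V) (g : G) (n : ℕ) (v : V) :
    ρ g ((S.L u)^[n] v) = (S.L (ρ g u))^[n] (ρ g v) := by
  induction n generalizing v with
  | zero => simp
  | succ n ih => rw [Function.iterate_succ_apply, ih, Function.iterate_succ_apply, L_apply, S.equiv, L_apply]

theorem iter_self (u : V) (n : ℕ) : (S.L u)^[n] u = u := by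
  induction n with
  | zero => simp
  | succ n ih => rw [Function.iterate_succ_apply, L_apply, S.idem, ih]

/-- invariant nonzero vectors act bijectively -/
theorem bij [FiniteDimensional k V] (hI : Indec ρ) (u : V) (hu : ∀ g, ρ g u = u) (hu0 : u ≠ 0) :
    Function.Bijective (S.L u) := by
  obtain ⟨n, hn, hc⟩ := semi_fitting (k := k) (S.L u) (S.L_smul u)
  have h := hI _ _ (fun g v hv => by
      rw [mem_Ker] at *
      rw [← S.iter_equiv u g (hu g), hv, map_zero])
    (fun g v hv => by
      obtain ⟨w, rfl⟩ := hv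
      exact ⟨ρ g w, (S.iter_equiv u g (hu g) n w).symm⟩) hc
  have hR : Ran (S.L u) (S.L_smul u) n ≠ ⊥ := by
    intro hb
    have : u ∈ Ran (S.L u) (S.L_smul u) n := ⟨u, S.iter_self u n⟩
    rw [hb, Submodule.mem_bot] at this
    exact hu0 this
  have hK : Ker (S.L u) (S.L_smul u) n = ⊥ := h.resolve_right hR
  obtain ⟨m, rfl⟩ : ∃ m, n = m + 1 := ⟨n - 1, by omega⟩
  constructor
  · rw [injective_iff_map_eq_zero]
    intro v hv
    have : v ∈ Ker (S.L u) (S.L_smul u) (m + 1) := by
      rw [mem_Ker, Function.iterate_succ_apply, hv, iter_zero]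
    rw [hK] at this
    simpa using this
  · intro v
    have hT : Ran (S.L u) (S.L_smul u) (m + 1) = ⊤ := by
      have := hc.sup_eq_top
      rwa [hK, bot_sup_eq] at this
    have hv : v ∈ Ran (S.L u) (S.L_smul u) (m + 1) := by rw [hT]; trivial
    obtain ⟨w, hw⟩ := hv
    exact ⟨(S.L u)^[m] w, by rw [← hw, Function.iterate_succ_apply']⟩

theorem inv_dep (S : Sq ρ) [FiniteDimensional k V] (hI : Indec ρ) (u₁ u₂ : V) (h₁ : ∀ g, ρ g u₁ = u₁)
    (h₂ : ∀ g, ρ g u₂ = u₂) (hu0 : u₂ ≠ 0) : ∃ c : k, u₁ = c • u₂ := by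
  have hb := S.bij hI u₂ h₂ hu0
  let e := Equiv.ofBijective _ hb
  have he : ∀ v, S.μ u₂ (e.symm v) = v := fun v => e.apply_symm_apply v
  have hinj : ∀ v w, S.μ u₂ v = S.μ u₂ w → v = w := fun v w h => hb.1 h
  let A : V →ₗ[k] V :=
    { toFun := fun w => e.symm (S.μ u₁ w)
      map_add' := by
        intro v w
        apply hinj
        rw [he, S.add_right, S.add_right, he, he]
      map_smul' := by
        intro a v
        obtain ⟨b, hb⟩ := IsAlgClosed.exists_pow_nat_eq a (n := 2) (by norm_num)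
        apply hinj
        rw [he, RingHom.id_apply, ← hb, S.smul_right, S.smul_right, he] }
  have : Nontrivial V := ⟨u₂, 0, hu0⟩
  obtain ⟨c, hc⟩ := Module.End.exists_eigenvalue A
  obtain ⟨w, hw⟩ := hc.exists_hasEigenvector
  have hw1 : A w = c • w := hw.apply_eq_smul
  have hw0 : w ≠ 0 := hw.2
  have hw2 : S.μ u₁ w = S.μ (c • u₂) w := by
    have h3 : S.μ u₂ (A w) = S.μ u₁ w := he _
    rw [← h3, hw1]
    obtain ⟨b, hb⟩ := IsAlgClosed.exists_pow_nat_eq c (n := 2) (by norm_num)
    rw [← hb, S.smul_right, S.smul_left]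
  refine ⟨c, ?_⟩
  by_contra hne
  have hne' : u₁ + c • u₂ ≠ 0 := by
    intro h
    apply hne
    rw [eq_neg_of_add_eq_zero_left h, neg_self' k]
  have hbb := S.bij hI (u₁ + c • u₂) (fun g => by rw [map_add, map_smul, h₁, h₂]) hne'
  have h0 : S.L (u₁ + c • u₂) w = S.L (u₁ + c • u₂) 0 := by
    rw [map_zero, L_apply, S.add_left, hw2, add_self' k]
  exact hw0 (hbb.1 h0)

end Sq

/-- fixed vectors of 2-groups -/
theorem exists_fixed (N : ℕ) : ∀ (G : Type) [Group G] [Finite G], Nat.card G = 2 ^ N →
    ∀ (ρ : Representation k G V) (W : Submodule k V), (∀ g, ∀ v ∈ W, ρ g v ∈ W) → W ≠ ⊥ →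
    ∃ w ∈ W, w ≠ 0 ∧ ∀ g, ρ g w = w := by
  induction N with
  | zero =>
    intro G _ _ hG ρ W hW hne
    obtain ⟨w, hw, hw0⟩ := Submodule.exists_mem_ne_zero_of_ne_bot hne
    refine ⟨w, hw, hw0, fun g => ?_⟩
    have : Subsingleton G := (Nat.card_eq_one_iff_unique.mp (by simpa using hG)).1
    rw [Subsingleton.elim g 1]; simp
  | succ N ih =>
    intro G _ _ hG ρ W hW hne
    obtain ⟨H, hH⟩ : ∃ H : Subgroup G, Nat.card H = 2 ^ N := by
      obtain ⟨H, hH⟩ := Sylow.exists_subgroup_card_pow_prime (G := G) 2 (n := N) (by rw [hG, pow_succ]; exact Dvd.intro _ rfl)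
      exact ⟨H, hH⟩
    have hidx : H.index = 2 := by
      have := H.card_mul_index
      rw [hG, hH, pow_succ] at this
      exact Nat.eq_of_mul_eq_mul_left (by positivity) this
    obtain ⟨w, hw, hw0, hfix⟩ := ih H hH (ρ.comp H.subtype) W (fun g v hv => hW g v hv) hne
    have hn : H.Normal := Subgroup.normal_of_index_eq_two hidx
    obtain ⟨g, hg⟩ : ∃ g : G, g ∉ H := by
      by_contra hcon
      push Not at hcon
      have : H = ⊤ := by rw [Subgroup.eq_top_iff']; exact hcon
      rw [this, Subgroup.index_top] at hidx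
      omega
    have hfix' : ∀ h ∈ H, ρ h w = w := fun h hh => hfix ⟨h, hh⟩
    have hcase : ∀ x : G, x ∉ H → ρ x w = ρ g w := by
      intro x hx
      have hmem : g⁻¹ * x ∈ H := by
        rw [Subgroup.mul_mem_iff_of_index_two hidx]
        simp [hx, hg]
      have : x = g * (g⁻¹ * x) := by group
      rw [this, map_mul, Module.End.mul_apply, hfix' _ hmem]
    by_cases hgw : ρ g w = w
    · refine ⟨w, hw, hw0, fun x => ?_⟩
      by_cases hx : x ∈ H
      · exact hfix' x hx
      · rw [hcase x hx, hgw]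
    · refine ⟨w + ρ g w, W.add_mem hw (hW g w hw), ?_, ?_⟩
      · intro h
        apply hgw
        rw [eq_neg_of_add_eq_zero_right h, neg_self' k]
      · have hg1 : ∀ h ∈ H, ρ h (ρ g w) = ρ g w := by
          intro h hh
          have h1 : h * g = g * (g⁻¹ * h * g) := by group
          rw [← Module.End.mul_apply, ← map_mul, h1, map_mul, Module.End.mul_apply, hfix']
          have := hn.conj_mem h hh g⁻¹
          simpa using this
        have hg2 : ρ g (ρ g w) = w := by
          rw [← Module.End.mul_apply, ← map_mul]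
          apply hfix'
          rw [← sq]
          exact Subgroup.sq_mem_of_index_two hidx g
        intro x
        by_cases hx : x ∈ H
        · rw [map_add, hfix' x hx, hg1 x hx]
        · have hmem : g⁻¹ * x ∈ H := by
            rw [Subgroup.mul_mem_iff_of_index_two hidx]
            simp [hx, hg]
          have hxx : x = g * (g⁻¹ * x) := by group
          rw [map_add, hcase x hx, hxx, map_mul, Module.End.mul_apply, hg1 _ hmem, hg2, add_comm]

end Pool.Agent.Helper29.TT
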