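import Pool.Agent.Helper29.TT.Group

set_option autoImplicit false
set_option linter.unusedSectionVars false

namespace Pool.Agent.Helper29.TT

open Module

variable {k : Type} [Field k] [IsAlgClosed k] [CharP k 2]
variable {V : Type} [AddCommGroup V] [Module k V]

theorem rho_inj {G : Type} [Group G] (ρ : Representation k G V) (g : G) :
    Function.Injective (ρ g) := by
  intro v w h
  have h2 : ρ g⁻¹ (ρ g v) = ρ g⁻¹ (ρ g w) := by rw [h]
  rwa [← Module.End.mul_apply, ← Module.End.mul_apply, ← map_mul, inv_mul_cancel, map_one,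
    Module.End.one_apply, Module.End.one_apply] at h2

/-- the case where an index-two subgroup has a fixed vector moved by `g` : even dimension -/
theorem even_case [FiniteDimensional k V] {G : Type} [Group G] [Finite G] (N : ℕ)
    (ρ : Representation k G V) (S : Sq ρ) (hI : Indec ρ) (H : Subgroup G)
    (hH : Nat.card H = 2 ^ N) (hidx : H.index = 2) (g : G) (hg : g ∉ H) (b₀ : V)
    (hb₀ : ∀ h ∈ H, ρ h b₀ = b₀) (hgb : ρ g b₀ ≠ b₀) : Even (finrank k V) := by
  have hn : H.Normal := Subgroup.normal_of_index_eq_two hidx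
  have hfixg : ∀ y : V, (∀ h ∈ H, ρ h y = y) → (∀ h ∈ H, ρ h (ρ g y) = ρ g y) := by
    intro y hy h hh
    have h1 : h * g = g * (g⁻¹ * h * g) := by group
    rw [← Module.End.mul_apply, ← map_mul, h1, map_mul, Module.End.mul_apply, hy]
    have := hn.conj_mem h hh g⁻¹
    simpa using this
  have hgg : ∀ y : V, (∀ h ∈ H, ρ h y = y) → ρ g (ρ g y) = y := by
    intro y hy
    rw [← Module.End.mul_apply, ← map_mul]
    apply hy
    rw [← sq]
    exact Subgroup.sq_mem_of_index_two hidx g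
  have hall : ∀ y : V, (∀ h ∈ H, ρ h y = y) → ρ g y = y → ∀ x, ρ x y = y := by
    intro y hy hgy x
    by_cases hx : x ∈ H
    · exact hy x hx
    · have hmem : g⁻¹ * x ∈ H := by
        rw [Subgroup.mul_mem_iff_of_index_two hidx]
        simp [hx, hg]
      have hxx : x = g * (g⁻¹ * x) := by group
      rw [hxx, map_mul, Module.End.mul_apply, hy _ hmem, hgy]
  obtain ⟨u, hu⟩ : ∃ u, u = b₀ + ρ g b₀ := ⟨_, rfl⟩
  have hu0 : u ≠ 0 := by
    intro h
    apply hgb
    rw [hu] at h
    rw [eq_neg_of_add_eq_zero_right h, neg_self' k]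
  have huG : ∀ x, ρ x u = u := by
    apply hall
    · intro h hh
      rw [hu, map_add, hb₀ h hh, hfixg b₀ hb₀ h hh]
    · rw [hu, map_add, hgg b₀ hb₀, add_comm]
  have hdep : ∀ y, (∀ x, ρ x y = y) → ∃ c : k, y = c • u := fun y hy =>
    S.inv_dep hI y u hy huG hu0
  obtain ⟨η, hη⟩ := hdep (S.μ b₀ (ρ g b₀)) (by
    apply hall
    · intro h hh
      rw [S.equiv, hb₀ h hh, hfixg b₀ hb₀ h hh]
    · rw [S.equiv, hgg b₀ hb₀, S.comm])
  obtain ⟨r, hr⟩ : ∃ r : k, r ^ 2 + r + η = 0 := by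
    have hdeg : (Polynomial.X ^ 2 + Polynomial.X + Polynomial.C η : Polynomial k).degree ≠ 0 := by
      have : (Polynomial.X ^ 2 + Polynomial.X + Polynomial.C η : Polynomial k).degree = 2 := by
        compute_degree!
      rw [this]; norm_num
    obtain ⟨r, hr⟩ := IsAlgClosed.exists_root _ hdeg
    exact ⟨r, by simpa using hr⟩
  obtain ⟨b, hb⟩ : ∃ b, b = b₀ + r ^ 2 • u := ⟨_, rfl⟩
  have hbH : ∀ h ∈ H, ρ h b = b := by
    intro h hh
    rw [hb, map_add, map_smul, hb₀ h hh, huG]
  have hgb' : ρ g b = ρ g b₀ + r ^ 2 • u := by rw [hb, map_add, map_smul, huG]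
  have hbu : b + ρ g b = u := by
    rw [hgb', hb]
    have := add_self' k (r ^ 2 • u)
    calc b₀ + r ^ 2 • u + (ρ g b₀ + r ^ 2 • u) = (b₀ + ρ g b₀) + (r ^ 2 • u + r ^ 2 • u) := by abel
      _ = u := by rw [this, add_zero, hu]
  have hbb : S.μ b (ρ g b) = 0 := by
    rw [hgb', hb, S.add_left, S.add_right, S.add_right, S.smul_right, S.smul_left, S.idem, hη]
    have h1 : S.μ b₀ u + S.μ u (ρ g b₀) = u := by
      rw [S.comm b₀ u, ← S.add_right, ← hu, S.idem]
    calc η • u + r • S.μ b₀ u + (r • S.μ u (ρ g b₀) + r ^ 2 • u)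
        = η • u + r • (S.μ b₀ u + S.μ u (ρ g b₀)) + r ^ 2 • u := by rw [smul_add]; abel
      _ = (r ^ 2 + r + η) • u := by rw [h1]; module
      _ = 0 := by rw [hr, zero_smul]
  obtain ⟨n, hn1, hc⟩ := semi_fitting (k := k) (S.L b) (S.L_smul b)
  set K := Ker (S.L b) (S.L_smul b) n with hKdef
  set R := Ran (S.L b) (S.L_smul b) n with hRdef
  have hbR : b ∈ R := ⟨b, S.iter_self b n⟩
  have hgbK : ρ g b ∈ K := by
    rw [hKdef, mem_Ker]
    obtain ⟨m, rfl⟩ : ∃ m, n = m + 1 := ⟨n - 1, by omega⟩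
    rw [Function.iterate_succ_apply, Sq.L_apply, hbb, iter_zero]
  have hKR : ∀ y, y ∈ K → y ∈ R → y = 0 := by
    intro y h1 h2
    have : y ∈ K ⊓ R := ⟨h1, h2⟩
    rwa [hc.inf_eq_bot, Submodule.mem_bot] at this
  have hKst : ∀ h ∈ H, ∀ v ∈ K, ρ h v ∈ K := by
    intro h hh v hv
    rw [hKdef, mem_Ker] at *
    rw [← S.iter_equiv b h (hbH h hh), hv, map_zero]
  have hRst : ∀ h ∈ H, ∀ v ∈ R, ρ h v ∈ R := by
    rintro h hh _ ⟨w, rfl⟩
    exact ⟨ρ h w, (S.iter_equiv b h (hbH h hh) n w).symm⟩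
  have hmapst : ∀ W : Submodule k V, (∀ h ∈ H, ∀ v ∈ W, ρ h v ∈ W) →
      ∀ h ∈ H, ∀ v ∈ W.map (ρ g), ρ h v ∈ W.map (ρ g) := by
    rintro W hW h hh _ ⟨w, hw, rfl⟩
    refine ⟨ρ (g⁻¹ * h * g) w, hW _ ?_ w hw, ?_⟩
    · have := hn.conj_mem h hh g⁻¹
      simpa using this
    · rw [← Module.End.mul_apply, ← Module.End.mul_apply, ← map_mul, ← map_mul]
      congr 2
      group
  have hgKR : ∀ y, y ∈ K.map (ρ g) → y ∈ R.map (ρ g) → y = 0 := by
    rintro _ ⟨v, hv, rfl⟩ ⟨w, hw, hvw⟩
    have : w = v := rho_inj ρ g hvw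
    subst this
    rw [hKR w hv hw, map_zero]
  have hbgK : b ∈ K.map (ρ g) := ⟨ρ g b, hgbK, hgg b hbH⟩
  have hgbR : ρ g b ∈ R.map (ρ g) := ⟨b, hbR, rfl⟩
  -- structure of H-fixed vectors
  have hstr : ∀ y, (∀ h ∈ H, ρ h y = y) → ∃ p q : k, y = p • b + q • ρ g b := by
    intro y hy
    obtain ⟨l, hl⟩ := hdep (y + ρ g y) (by
      apply hall
      · intro h hh
        rw [map_add, hy h hh, hfixg y hy h hh]
      · rw [map_add, hgg y hy, add_comm])
    have hgy : ρ g y = y + l • (b + ρ g b) := by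
      rw [hbu, ← hl]
      rw [← add_assoc, add_self' k, zero_add]
    obtain ⟨ν, hν⟩ := hdep (y + l • b) (by
      apply hall
      · intro h hh
        rw [map_add, map_smul, hy h hh, hbH h hh]
      · rw [map_add, map_smul, hgy, smul_add]
        calc y + (l • b + l • ρ g b) + l • ρ g b = y + l • b + (l • ρ g b + l • ρ g b) := by abel
          _ = y + l • b := by rw [add_self' k, add_zero])
    refine ⟨ν + l, ν, ?_⟩
    have : y = ν • u + l • b := by
      rw [← hν, add_assoc, add_self' k, add_zero]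
    rw [this, ← hbu]
    module
  have key : ∀ W : Submodule k V, (∀ h ∈ H, ∀ v ∈ W, ρ h v ∈ W) →
      (∀ y, (∀ h ∈ H, ρ h y = y) → y ∈ W → y ∈ W.map (ρ g) → y = 0) →
      2 * finrank k W ≤ finrank k V := by
    intro W hW hz
    have hdisj : Disjoint W (W.map (ρ g)) := by
      rw [disjoint_iff]
      by_contra hne
      obtain ⟨y, hyW, hy0, hyH⟩ := exists_fixed N H hH (ρ.comp H.subtype) (W ⊓ W.map (ρ g))
        (fun h v hv => ⟨hW h h.2 v hv.1, hmapst W hW h h.2 v hv.2⟩) hne
      exact hy0 (hz y (fun h hh => hyH ⟨h, hh⟩) hyW.1 hyW.2)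
    have h1 := Submodule.finrank_add_finrank_le_of_disjoint hdisj
    have h2 : finrank k (W.map (ρ g)) = finrank k W :=
      (Submodule.equivMapOfInjective (ρ g) (rho_inj ρ g) W).finrank_eq.symm
    omega
  have hK2 := key K hKst (by
    intro y hy h1 h2
    obtain ⟨p, q, hpq⟩ := hstr y hy
    have h3 : p • b = 0 := by
      apply hKR
      · have : p • b = y - q • ρ g b := by rw [hpq]; abel
        rw [this]
        exact K.sub_mem h1 (K.smul_mem q hgbK)
      · exact R.smul_mem p hbR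
    have h4 : y = q • ρ g b := by rw [hpq, h3, zero_add]
    apply hgKR y h2
    rw [h4]
    exact Submodule.smul_mem _ q hgbR)
  have hR2 := key R hRst (by
    intro y hy h1 h2
    obtain ⟨p, q, hpq⟩ := hstr y hy
    have h3 : q • ρ g b = 0 := by
      apply hKR
      · exact K.smul_mem q hgbK
      · have : q • ρ g b = y - p • b := by rw [hpq]; abel
        rw [this]
        exact R.sub_mem h1 (R.smul_mem p hbR)
    have h4 : y = p • b := by rw [hpq, h3, add_zero]
    refine hgKR y ?_ h2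
    rw [h4]
    exact Submodule.smul_mem _ p hbgK)
  have hsum := Submodule.finrank_add_eq_of_isCompl hc
  exact ⟨finrank k K, by omega⟩

theorem odd_main [FiniteDimensional k V] (N : ℕ) : ∀ (G : Type) [Group G] [Finite G],
    Nat.card G = 2 ^ N → ∀ (ρ : Representation k G V), Indec ρ → Sq ρ → Odd (finrank k V) →
    finrank k V = 1 := by
  induction N with
  | zero =>
    intro G _ _ hG ρ hI S hodd
    have hsub : Subsingleton G := (Nat.card_eq_one_iff_unique.mp (by simpa using hG)).1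
    have htriv : ∀ (g : G) (v : V), ρ g v = v := by
      intro g v
      rw [Subsingleton.elim g 1]; simp
    have hpos : 0 < finrank k V := hodd.pos
    have : Nontrivial V := Module.finrank_pos_iff.mp hpos
    obtain ⟨u, hu0⟩ := exists_ne (0 : V)
    have hle : finrank k V ≤ 1 := by
      apply finrank_le_one u
      intro w
      obtain ⟨c, hc⟩ := S.inv_dep hI w u (fun g => htriv g w) (fun g => htriv g u) hu0
      exact ⟨c, hc.symm⟩
    omega
  | succ N ih =>
    intro G _ _ hG ρ hI S hodd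
    obtain ⟨H, hH⟩ : ∃ H : Subgroup G, Nat.card H = 2 ^ N := by
      obtain ⟨H, hH⟩ := Sylow.exists_subgroup_card_pow_prime (G := G) 2 (n := N)
        (by rw [hG, pow_succ]; exact Dvd.intro _ rfl)
      exact ⟨H, hH⟩
    have hidx : H.index = 2 := by
      have := H.card_mul_index
      rw [hG, hH, pow_succ] at this
      exact Nat.eq_of_mul_eq_mul_left (by positivity) this
    obtain ⟨g, hg⟩ : ∃ g : G, g ∉ H := by
      by_contra hcon
      push Not at hcon
      have : H = ⊤ := by rw [Subgroup.eq_top_iff']; exact hcon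
      rw [this, Subgroup.index_top] at hidx
      omega
    by_cases hA : ∀ y : V, (∀ h ∈ H, ρ h y = y) → ρ g y = y
    · apply ih H hH (ρ.comp H.subtype) _ (S.res H) hodd
      intro W₁ W₂ h1 h2 hc
      by_contra hcon
      push Not at hcon
      obtain ⟨w₁, hw₁, hw₁0, hf₁⟩ := exists_fixed N H hH (ρ.comp H.subtype) W₁ h1 hcon.1
      obtain ⟨w₂, hw₂, hw₂0, hf₂⟩ := exists_fixed N H hH (ρ.comp H.subtype) W₂ h2 hcon.2
      have hall : ∀ y : V, (∀ h : H, (ρ.comp H.subtype) h y = y) → ∀ x, ρ x y = y := by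
        intro y hy x
        have hy' : ∀ h ∈ H, ρ h y = y := fun h hh => hy ⟨h, hh⟩
        by_cases hx : x ∈ H
        · exact hy' x hx
        · have hmem : g⁻¹ * x ∈ H := by
            rw [Subgroup.mul_mem_iff_of_index_two hidx]
            simp [hx, hg]
          have hxx : x = g * (g⁻¹ * x) := by group
          rw [hxx, map_mul, Module.End.mul_apply, hy' _ hmem, hA y hy']
      obtain ⟨c, hc'⟩ := S.inv_dep hI w₁ w₂ (hall w₁ hf₁) (hall w₂ hf₂) hw₂0
      have : w₁ ∈ W₁ ⊓ W₂ := ⟨hw₁, by rw [hc']; exact W₂.smul_mem c hw₂⟩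
      rw [hc.inf_eq_bot, Submodule.mem_bot] at this
      exact hw₁0 this
    · push Not at hA
      obtain ⟨b₀, hb₀, hgb⟩ := hA
      have := even_case N ρ S hI H hH hidx g hg b₀ hb₀ hgb
      rw [← Nat.not_even_iff_odd] at hodd
      exact absurd this hodd

end Pool.Agent.Helper29.TT
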