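import Pool.Agent.Helper29.TT.Main

set_option autoImplicit false
set_option linter.unusedSectionVars false

namespace Pool.Agent.Helper29.TT

open Module

variable {k : Type} [Field k] [IsAlgClosed k] [CharP k 2]
variable {V : Type} [AddCommGroup V] [Module k V]

/-- symmetric contraction data -/
structure Lam {G : Type} [Group G] (ρ : Representation k G V) where
  Λ : V → V → Dual k V → Dual k V → k
  add1 : ∀ v v' u ξ η, Λ (v + v') u ξ η = Λ v u ξ η + Λ v' u ξ η
  smul1 : ∀ (a : k) v u ξ η, Λ (a • v) u ξ η = a * Λ v u ξ η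
  comm12 : ∀ v u ξ η, Λ v u ξ η = Λ u v ξ η
  add3 : ∀ v u ξ ξ' η, Λ v u (ξ + ξ') η = Λ v u ξ η + Λ v u ξ' η
  smul3 : ∀ (a : k) v u ξ η, Λ v u (a • ξ) η = a * Λ v u ξ η
  comm34 : ∀ v u ξ η, Λ v u ξ η = Λ v u η ξ
  equiv : ∀ (g : G) v u ξ η, Λ (ρ g v) (ρ g u) ξ η = Λ v u (ξ ∘ₗ ρ g) (η ∘ₗ ρ g)

theorem sq_inj {a b : k} (h : a ^ 2 = b ^ 2) : a = b := by
  have h1 : (a + b) ^ 2 = 0 := by
    rw [CharTwo.add_sq, h, CharTwo.add_self_eq_zero]
  have h2 : a + b = 0 := by simpa using h1
  exact CharTwo.add_eq_zero.mp h2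

theorem dual_sq_ext [FiniteDimensional k V] {x y : V}
    (h : ∀ ξ : Dual k V, (ξ x) ^ 2 = (ξ y) ^ 2) : x = y := by
  apply (Module.evalEquiv k V).injective
  ext ξ
  simpa using sq_inj (h ξ)

namespace Lam

variable {G : Type} [Group G] {ρ : Representation k G V} (T : Lam ρ)

noncomputable def fn (v u : V) : Dual k (Dual k V) where
  toFun := fun ξ => (frobeniusEquiv k 2).symm (T.Λ v u ξ ξ)
  map_add' := by
    intro ξ η
    rw [← map_add, T.add3, T.comm34 v u ξ, T.comm34 v u η, T.add3, T.add3]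
    congr 1
    have : T.Λ v u η ξ + T.Λ v u ξ η = 0 := by
      rw [T.comm34 v u η ξ]; exact CharTwo.add_self_eq_zero _
    linear_combination this
  map_smul' := by
    intro a ξ
    rw [T.smul3, T.comm34, T.smul3, ← mul_assoc, map_mul, RingHom.id_apply, smul_eq_mul]
    congr 1
    rw [← sq]
    apply sq_inj
    have := frobeniusEquiv_symm_pow_p k 2 (a ^ 2)
    exact this

theorem fn_apply (v u : V) (ξ : Dual k V) : (T.fn v u ξ) ^ 2 = T.Λ v u ξ ξ :=
  frobeniusEquiv_symm_pow_p k 2 _

variable [FiniteDimensional k V]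

noncomputable def m0 (v u : V) : V := (Module.evalEquiv k V).symm (T.fn v u)

theorem m0_spec (v u : V) (ξ : Dual k V) : (ξ (T.m0 v u)) ^ 2 = T.Λ v u ξ ξ := by
  rw [m0, Module.apply_evalEquiv_symm_apply, fn_apply]

theorem m0_add (v v' u : V) : T.m0 (v + v') u = T.m0 v u + T.m0 v' u := by
  apply dual_sq_ext (k := k)
  intro ξ
  rw [m0_spec, T.add1, map_add, CharTwo.add_sq, m0_spec, m0_spec]

theorem m0_comm (v u : V) : T.m0 v u = T.m0 u v := by
  apply dual_sq_ext (k := k)
  intro ξ
  rw [m0_spec, m0_spec, T.comm12]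

theorem m0_smul (a : k) (v u : V) : T.m0 (a ^ 2 • v) u = a • T.m0 v u := by
  apply dual_sq_ext (k := k)
  intro ξ
  rw [m0_spec, T.smul1, map_smul, smul_eq_mul, mul_pow, m0_spec]

theorem m0_equiv (g : G) (v u : V) : ρ g (T.m0 v u) = T.m0 (ρ g v) (ρ g u) := by
  apply dual_sq_ext (k := k)
  intro ξ
  rw [m0_spec, T.equiv, ← m0_spec]
  rfl

noncomputable def A : V →ₗ[k] V where
  toFun := fun v => T.m0 v v
  map_add' := by
    intro v u
    rw [T.m0_add, T.m0_comm v (v + u), T.m0_comm u (v + u), T.m0_add, T.m0_add, T.m0_comm u v]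
    have := add_self' k (T.m0 v u)
    calc T.m0 v v + T.m0 v u + (T.m0 v u + T.m0 u u)
        = T.m0 v v + T.m0 u u + (T.m0 v u + T.m0 v u) := by abel
      _ = T.m0 v v + T.m0 u u := by rw [this, add_zero]
  map_smul' := by
    intro a v
    obtain ⟨b, rfl⟩ := IsAlgClosed.exists_pow_nat_eq a (n := 2) (by norm_num)
    rw [T.m0_smul, T.m0_comm, T.m0_smul, smul_smul, RingHom.id_apply, sq]

theorem A_apply (v : V) : T.A v = T.m0 v v := rfl

theorem A_equiv (g : G) (v : V) : ρ g (T.A v) = T.A (ρ g v) := T.m0_equiv g v v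

theorem trace_sq {ι : Type} [Fintype ι] [DecidableEq ι] (b : Basis ι k V) :
    (LinearMap.trace k V T.A) ^ 2 = ∑ a, T.Λ (b a) (b a) (b.coord a) (b.coord a) := by
  rw [LinearMap.trace_eq_matrix_trace k b, Matrix.trace]
  simp only [Matrix.diag_apply, LinearMap.toMatrix_apply]
  rw [CharTwo.sum_sq]
  refine Finset.sum_congr rfl fun a _ => ?_
  rw [A_apply, ← m0_spec]
  rfl

end Lam

/-- in an indecomposable representation every commuting endomorphism with nonzero trace is
bijective, and the dimension is odd -/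
theorem endo_bij [FiniteDimensional k V] {G : Type} [Group G] (ρ : Representation k G V)
    (hI : Indec ρ) (A : V →ₗ[k] V) (hA : ∀ g v, ρ g (A v) = A (ρ g v))
    (htr : LinearMap.trace k V A ≠ 0) : Function.Bijective A ∧ Odd (finrank k V) := by
  have hnt : Nontrivial V := by
    by_contra h
    rw [not_nontrivial_iff_subsingleton] at h
    apply htr
    have : A = 0 := Subsingleton.elim _ _
    rw [this, map_zero]
  have hst : ∀ (B : V →ₗ[k] V), (∀ g v, ρ g (B v) = B (ρ g v)) → ¬ IsNilpotent B →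
      Function.Injective B := by
    intro B hB hnil
    obtain ⟨n, hn, hc⟩ : ∃ n, 1 ≤ n ∧ IsCompl (LinearMap.ker (B ^ n)) (LinearMap.range (B ^ n)) := by
      have h1 := LinearMap.eventually_isCompl_ker_pow_range_pow B
      obtain ⟨n, hn⟩ := Filter.eventually_atTop.mp h1
      exact ⟨n + 1, by omega, hn (n + 1) (by omega)⟩
    have hpow : ∀ (g : G) (v : V), ρ g ((B ^ n) v) = (B ^ n) (ρ g v) := by
      intro g v
      clear hc hn
      induction n generalizing v with
      | zero => simp
      | succ n ih => rw [pow_succ, Module.End.mul_apply, ih, hB, Module.End.mul_apply]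
    rcases hI _ _ (fun g v hv => by
        rw [LinearMap.mem_ker] at *
        rw [← hpow, hv, map_zero])
      (fun g v hv => by
        obtain ⟨w, rfl⟩ := hv
        exact ⟨ρ g w, (hpow g w).symm⟩) hc with h | h
    · rw [injective_iff_map_eq_zero]
      intro v hv
      have : v ∈ LinearMap.ker (B ^ n) := by
        obtain ⟨m, rfl⟩ : ∃ m, n = m + 1 := ⟨n - 1, by omega⟩
        rw [LinearMap.mem_ker, pow_succ, Module.End.mul_apply, hv, map_zero]
      rw [h] at this
      simpa using this
    · exact absurd ⟨n, LinearMap.range_eq_bot.mp h⟩ hnil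
  have hAn : ¬ IsNilpotent A := fun h => htr (LinearMap.isNilpotent_trace_of_isNilpotent h).eq_zero
  have hinj := hst A hA hAn
  refine ⟨⟨hinj, LinearMap.surjective_of_injective hinj⟩, ?_⟩
  obtain ⟨c, hc⟩ := Module.End.exists_eigenvalue A
  have hBn : IsNilpotent (A - c • (1 : V →ₗ[k] V)) := by
    by_contra hcon
    have := hst _ (by
      intro g v
      simp [hA]) hcon
    obtain ⟨w, hw⟩ := hc.exists_hasEigenvector
    apply hw.2
    apply this
    rw [map_zero]
    simp [hw.apply_eq_smul]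
  have h0 := (LinearMap.isNilpotent_trace_of_isNilpotent hBn).eq_zero
  rw [map_sub, map_smul, LinearMap.trace_one, sub_eq_zero] at h0
  by_contra hodd
  rw [Nat.not_odd_iff_even] at hodd
  apply htr
  rw [h0]
  obtain ⟨r, hr⟩ := hodd
  have : ((finrank k V : ℕ) : k) = 0 := by
    rw [hr, Nat.cast_add, CharTwo.add_self_eq_zero]
  rw [this, smul_zero]

theorem of_lam [FiniteDimensional k V] {G : Type} [Group G] [Finite G] (hG : IsPGroup 2 G)
    (ρ : Representation k G V) (hI : Indec ρ) (T : Lam ρ)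
    {ι : Type} [Fintype ι] [DecidableEq ι] (b : Basis ι k V)
    (htr : ∑ a, T.Λ (b a) (b a) (b.coord a) (b.coord a) = 1) : finrank k V = 1 := by
  have h1 : LinearMap.trace k V T.A ≠ 0 := by
    intro h
    have := T.trace_sq b
    rw [h, htr] at this
    simp at this
  obtain ⟨hbij, hodd⟩ := endo_bij ρ hI T.A T.A_equiv h1
  let e := LinearEquiv.ofBijective T.A hbij
  have he : ∀ v, T.A (e.symm v) = v := fun v => e.apply_symm_apply v
  have heq : ∀ (g : G) v, ρ g (e.symm v) = e.symm (ρ g v) := by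
    intro g v
    apply hbij.1
    rw [he, ← T.A_equiv, he]
  let S : Sq ρ :=
    { μ := fun v u => e.symm (T.m0 v u)
      add_left := by intro u v w; rw [T.m0_add, map_add]
      comm := by intro u v; rw [T.m0_comm]
      smul_left := by intro a u v; rw [T.m0_smul, map_smul]
      idem := by
        intro u
        exact e.symm_apply_apply u
      equiv := by
        intro g u v
        rw [heq, T.m0_equiv] }
  obtain ⟨N, hN⟩ := IsPGroup.iff_card.mp hG
  exact odd_main N G hN ρ hI S hodd

end Pool.Agent.Helper29.TT
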